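import Pool.Agent.H601R2.PCG.Defs
import Pool.Agent.H679R2.Oct.Defs

/-!
# Split graphs with a stable side of degree three
-/

set_option autoImplicit false

namespace Pool.Agent.Q227.CG

open Pool.Agent.H601R2.PCG Pool.Agent.H679R2

/-- Instances: a presented graph (list of vertices, list of pairs of vertices) and a list of
vertices, the stable side. -/
abbrev Inst : Type := (List ℕ × List (ℕ × ℕ)) × List ℕ

/-- The instance `I` is a graph of the class `3split_3` with its partition: the vertices in the
list `I.2` form a stable set, the other vertices form a complete set, and each of the vertices in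
`I.2` has exactly three neighbours. -/
def ThreeSplit3 (I : Inst) : Prop :=
  (∀ u v : {v : ℕ // v ∈ I.1.1}, u.1 ∈ I.2 → v.1 ∈ I.2 → ¬ (toGraph I.1).Adj u v) ∧
  (∀ u v : {v : ℕ // v ∈ I.1.1}, u.1 ∉ I.2 → v.1 ∉ I.2 → u ≠ v → (toGraph I.1).Adj u v) ∧
  ∀ u : {v : ℕ // v ∈ I.1.1}, u.1 ∈ I.2 → ((toGraph I.1).neighborSet u).ncard = 3

/-- The recognition problem: the instance is a graph of the class `3split_3`, and this graph is a
clique graph. -/
def CliqueGraph3 (I : Inst) : Prop := ThreeSplit3 I ∧ IsCliqueGraph (toGraph I.1)

end Pool.Agent.Q227.CG
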