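import Pool.Agent.Q227.CG.Math
import Pool.Agent.Q227.MkG

/-!
# The graph of a formula
-/

set_option autoImplicit false

namespace Pool.Agent.Q227.CG

open Pool.Agent.H601R2.PCG Pool.Agent.Q227 Pool.Agent.H679R2

/-- The next position in the clause. -/
def nx (r : ℕ) : ℕ := if r % 3 = 2 then r - 2 else r + 1

/-- The vertex of the literal number `r`. -/
def lc (vr : ℕ → ℕ) (ps : ℕ → Bool) (r : ℕ) : ℕ := if ps r = true then 13 * vr r else 13 * vr r + 2

/-- First neighbour of a stable vertex. -/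
def nb1 (vr : ℕ → ℕ) (ps : ℕ → Bool) (x : ℕ) : ℕ :=
  if x % 13 = 7 then x - 7 else if x % 13 = 8 then x - 5 else if x % 13 = 12 then x - 8 else
    lc vr ps (x / 13)

/-- Second neighbour of a stable vertex. -/
def nb2 (x : ℕ) : ℕ :=
  if x % 13 = 7 then x - 6 else if x % 13 = 8 then 13 * nx (x / 13) + 3 else
    if x % 13 = 12 then x - 7 else x - x % 13 + 3

/-- Third neighbour of a stable vertex. -/
def nb3 (vr : ℕ → ℕ) (x : ℕ) : ℕ :=
  if x % 13 = 7 then x - 5 else if x % 13 = 8 then 13 * vr (x / 13) + 1 else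
    if x % 13 = 12 then x - 6 else x - 5

/-- Neighbours of the stable vertices. -/
def isN (vr : ℕ → ℕ) (ps : ℕ → Bool) (s v : ℕ) : Bool :=
  decide (7 ≤ s % 13) && (decide (v = nb1 vr ps s) || (decide (v = nb2 s) || decide (v = nb3 vr s)))

/-- Adjacency. -/
def adj (vr : ℕ → ℕ) (ps : ℕ → Bool) (x y : ℕ) : Bool :=
  (decide (x % 13 < 7) && (decide (y % 13 < 7) && !decide (x = y))) ||
  ((decide (y % 13 < 7) && isN vr ps x y) || (decide (x % 13 < 7) && isN vr ps y x))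

theorem adj_symm (vr : ℕ → ℕ) (ps : ℕ → Bool) (x y : ℕ) (h : adj vr ps x y = true) :
    adj vr ps y x = true := by
  unfold adj at h ⊢
  simp only [Bool.or_eq_true, Bool.and_eq_true, decide_eq_true_eq, Bool.not_eq_true',
    decide_eq_false_iff_not] at h ⊢
  rcases h with ⟨h1, h2, h3⟩ | h | h
  · exact Or.inl ⟨h2, h1, fun e => h3 e.symm⟩
  · exact Or.inr (Or.inr h)
  · exact Or.inr (Or.inl h)

theorem adj_irrefl (vr : ℕ → ℕ) (ps : ℕ → Bool) (x : ℕ) : adj vr ps x x = false := by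
  by_contra h
  rw [Bool.not_eq_false] at h
  unfold adj isN at h
  simp only [Bool.or_eq_true, Bool.and_eq_true, decide_eq_true_eq, Bool.not_eq_true',
    decide_eq_false_iff_not] at h
  rcases h with ⟨h1, h2, h3⟩ | ⟨h1, h2, -⟩ | ⟨h1, h2, -⟩
  · exact h3 trivial
  · omega
  · omega

/-- The data of a formula: `n` literals, grouped by three. -/
structure Dat (n : ℕ) (vr : ℕ → ℕ) : Prop where
  three : n % 3 = 0
  lt : ∀ r < n, vr r < n
  d1 : ∀ r < n, vr r ≠ vr (nx r)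

variable {n : ℕ} {vr : ℕ → ℕ} {ps : ℕ → Bool}

theorem nx3 (r : ℕ) : nx (nx (nx r)) = r := by unfold nx; split_ifs <;> omega

theorem nx_ne (r : ℕ) : nx r ≠ r := by unfold nx; split_ifs <;> omega

theorem nx_ne2 (r : ℕ) : nx (nx r) ≠ r := by unfold nx; split_ifs <;> omega

theorem Dat.nx_lt (h : Dat n vr) {r : ℕ} (hr : r < n) : nx r < n := by
  have := h.three
  unfold nx; split_ifs <;> omega

theorem Dat.d2 (h : Dat n vr) {r : ℕ} (hr : r < n) : vr r ≠ vr (nx (nx r)) := by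
  have := h.d1 _ (h.nx_lt (h.nx_lt hr))
  rw [nx3] at this
  exact this.symm

theorem Dat.d3 (h : Dat n vr) {r : ℕ} (hr : r < n) : vr (nx r) ≠ vr (nx (nx r)) :=
  h.d1 _ (h.nx_lt hr)

theorem lc_or (vr : ℕ → ℕ) (ps : ℕ → Bool) (r : ℕ) :
    lc vr ps r = 13 * vr r ∨ lc vr ps r = 13 * vr r + 2 := by
  unfold lc; split_ifs
  · exact Or.inl rfl
  · exact Or.inr rfl

/-- The neighbours of `s`. -/
def Nb (vr : ℕ → ℕ) (ps : ℕ → Bool) (s v : ℕ) : Prop := v = nb1 vr ps s ∨ v = nb2 s ∨ v = nb3 vr s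

theorem kinds {s : ℕ} (h : 7 ≤ s % 13) : ∃ r, r = s / 13 ∧ (s = 13 * r + 7 ∨ s = 13 * r + 8 ∨
    s = 13 * r + 9 ∨ s = 13 * r + 10 ∨ s = 13 * r + 11 ∨ s = 13 * r + 12) := ⟨_, rfl, by omega⟩

section nbs

variable (vr ps)

theorem N7 (v : ℕ) : nb1 vr ps (13 * v + 7) = 13 * v ∧ nb2 (13 * v + 7) = 13 * v + 1 ∧
    nb3 vr (13 * v + 7) = 13 * v + 2 := by
  have e1 : (13 * v + 7) % 13 = 7 := by omega
  unfold nb1 nb2 nb3
  rw [if_pos e1, if_pos e1, if_pos e1]
  exact ⟨by omega, by omega, by omega⟩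

theorem N8 (v : ℕ) : nb1 vr ps (13 * v + 8) = 13 * v + 3 ∧ nb2 (13 * v + 8) = 13 * nx v + 3 ∧
    nb3 vr (13 * v + 8) = 13 * vr v + 1 := by
  have e1 : (13 * v + 8) % 13 = 8 := by omega
  have e2 : (13 * v + 8) / 13 = v := by omega
  unfold nb1 nb2 nb3
  rw [e1, e2]
  exact ⟨by simp, by simp, by simp⟩

theorem N9 (v : ℕ) : nb1 vr ps (13 * v + 9) = lc vr ps v ∧ nb2 (13 * v + 9) = 13 * v + 3 ∧
    nb3 vr (13 * v + 9) = 13 * v + 4 := by
  have e1 : (13 * v + 9) % 13 = 9 := by omega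
  have e2 : (13 * v + 9) / 13 = v := by omega
  unfold nb1 nb2 nb3
  rw [e1, e2]
  exact ⟨by simp, by simp, by simp⟩

theorem N10 (v : ℕ) : nb1 vr ps (13 * v + 10) = lc vr ps v ∧ nb2 (13 * v + 10) = 13 * v + 3 ∧
    nb3 vr (13 * v + 10) = 13 * v + 5 := by
  have e1 : (13 * v + 10) % 13 = 10 := by omega
  have e2 : (13 * v + 10) / 13 = v := by omega
  unfold nb1 nb2 nb3
  rw [e1, e2]
  exact ⟨by simp, by simp, by simp⟩

theorem N11 (v : ℕ) : nb1 vr ps (13 * v + 11) = lc vr ps v ∧ nb2 (13 * v + 11) = 13 * v + 3 ∧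
    nb3 vr (13 * v + 11) = 13 * v + 6 := by
  have e1 : (13 * v + 11) % 13 = 11 := by omega
  have e2 : (13 * v + 11) / 13 = v := by omega
  unfold nb1 nb2 nb3
  rw [e1, e2]
  exact ⟨by simp, by simp, by simp⟩

theorem N12 (v : ℕ) : nb1 vr ps (13 * v + 12) = 13 * v + 4 ∧ nb2 (13 * v + 12) = 13 * v + 5 ∧
    nb3 vr (13 * v + 12) = 13 * v + 6 := by
  have e1 : (13 * v + 12) % 13 = 12 := by omega
  unfold nb1 nb2 nb3
  rw [e1]
  exact ⟨by simp, by simp, by simp⟩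

theorem Nb7 (r v : ℕ) : Nb vr ps (13 * r + 7) v ↔ v = 13 * r ∨ v = 13 * r + 1 ∨ v = 13 * r + 2 := by
  obtain ⟨h1, h2, h3⟩ := N7 vr ps r
  unfold Nb; rw [h1, h2, h3]

theorem Nb8 (r v : ℕ) : Nb vr ps (13 * r + 8) v ↔ v = 13 * r + 3 ∨ v = 13 * nx r + 3 ∨
    v = 13 * vr r + 1 := by
  obtain ⟨h1, h2, h3⟩ := N8 vr ps r
  unfold Nb; rw [h1, h2, h3]

theorem Nb9 (r v : ℕ) : Nb vr ps (13 * r + 9) v ↔ v = lc vr ps r ∨ v = 13 * r + 3 ∨
    v = 13 * r + 4 := by
  obtain ⟨h1, h2, h3⟩ := N9 vr ps r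
  unfold Nb; rw [h1, h2, h3]

theorem Nb10 (r v : ℕ) : Nb vr ps (13 * r + 10) v ↔ v = lc vr ps r ∨ v = 13 * r + 3 ∨
    v = 13 * r + 5 := by
  obtain ⟨h1, h2, h3⟩ := N10 vr ps r
  unfold Nb; rw [h1, h2, h3]

theorem Nb11 (r v : ℕ) : Nb vr ps (13 * r + 11) v ↔ v = lc vr ps r ∨ v = 13 * r + 3 ∨
    v = 13 * r + 6 := by
  obtain ⟨h1, h2, h3⟩ := N11 vr ps r
  unfold Nb; rw [h1, h2, h3]

theorem Nb12 (r v : ℕ) : Nb vr ps (13 * r + 12) v ↔ v = 13 * r + 4 ∨ v = 13 * r + 5 ∨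
    v = 13 * r + 6 := by
  obtain ⟨h1, h2, h3⟩ := N12 vr ps r
  unfold Nb; rw [h1, h2, h3]

end nbs

/-- The neighbours are three different vertices of the complete side. -/
theorem nb_spec (h : Dat n vr) {s : ℕ} (hs : s < 13 * n) (hk : 7 ≤ s % 13) :
    (nb1 vr ps s % 13 < 7 ∧ nb2 s % 13 < 7 ∧ nb3 vr s % 13 < 7) ∧
    (nb1 vr ps s < 13 * n ∧ nb2 s < 13 * n ∧ nb3 vr s < 13 * n) ∧
    (nb1 vr ps s ≠ nb2 s ∧ nb1 vr ps s ≠ nb3 vr s ∧ nb2 s ≠ nb3 vr s) := by
  obtain ⟨r, -, h1⟩ := kinds hk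
  have hr : r < n := by omega
  have h2 := h.lt r hr
  have h3 := h.nx_lt hr
  have h4 := nx_ne r
  have h5 := lc_or vr ps r
  rcases h1 with e | e | e | e | e | e
  · obtain ⟨a1, a2, a3⟩ := N7 vr ps r
    rw [e, a1, a2, a3]; omega
  · obtain ⟨a1, a2, a3⟩ := N8 vr ps r
    rw [e, a1, a2, a3]; omega
  · obtain ⟨a1, a2, a3⟩ := N9 vr ps r
    rw [e, a1, a2, a3]; omega
  · obtain ⟨a1, a2, a3⟩ := N10 vr ps r
    rw [e, a1, a2, a3]; omega
  · obtain ⟨a1, a2, a3⟩ := N11 vr ps r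
    rw [e, a1, a2, a3]; omega
  · obtain ⟨a1, a2, a3⟩ := N12 vr ps r
    rw [e, a1, a2, a3]; omega

theorem adj_KK {x y : ℕ} (hx : x % 13 < 7) (hy : y % 13 < 7) :
    adj vr ps x y = true ↔ x ≠ y := by
  unfold adj isN
  simp only [Bool.or_eq_true, Bool.and_eq_true, decide_eq_true_eq, Bool.not_eq_true',
    decide_eq_false_iff_not]
  constructor
  · rintro (⟨-, -, h⟩ | ⟨-, h, -⟩ | ⟨-, h, -⟩)
    · exact h
    · omega
    · omega
  · intro h
    exact Or.inl ⟨hx, hy, h⟩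

theorem adj_SS {x y : ℕ} (hx : 7 ≤ x % 13) (hy : 7 ≤ y % 13) : ¬ adj vr ps x y = true := by
  unfold adj isN
  simp only [Bool.or_eq_true, Bool.and_eq_true, decide_eq_true_eq, Bool.not_eq_true',
    decide_eq_false_iff_not]
  rintro (⟨h, -⟩ | ⟨h, -⟩ | ⟨h, -⟩) <;> omega

theorem adj_S (h : Dat n vr) {s : ℕ} (hs : s < 13 * n) (hk : 7 ≤ s % 13) (v : ℕ) :
    adj vr ps s v = true ↔ Nb vr ps s v := by
  obtain ⟨⟨h1, h2, h3⟩, -, -⟩ := nb_spec (ps := ps) h hs hk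
  unfold adj isN Nb
  simp only [Bool.or_eq_true, Bool.and_eq_true, decide_eq_true_eq, Bool.not_eq_true',
    decide_eq_false_iff_not]
  constructor
  · rintro (⟨h, -⟩ | ⟨-, -, h⟩ | ⟨h, -⟩)
    · omega
    · exact h
    · omega
  · intro h
    refine Or.inr (Or.inl ⟨?_, hk, h⟩)
    rcases h with h | h | h <;> rw [h] <;> assumption

/-- The graph. -/
abbrev Gg (n : ℕ) (vr : ℕ → ℕ) (ps : ℕ → Bool) : SimpleGraph {x : ℕ // x ∈ List.range (13 * n)} :=
  GrL (List.range (13 * n)) (adj vr ps) (adj_symm vr ps) (adj_irrefl vr ps)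

/-! ### From a good family to an assignment -/

/-- `s` links `x` and `y`. -/
def Lk (K : {x : ℕ // x ∈ List.range (13 * n)} → {x : ℕ // x ∈ List.range (13 * n)} →
    Set {x : ℕ // x ∈ List.range (13 * n)}) (vr : ℕ → ℕ) (ps : ℕ → Bool) (s x y : ℕ) : Prop :=
  ∀ (hs : s ∈ List.range (13 * n)) (hx : x ∈ List.range (13 * n)) (hy : y ∈ List.range (13 * n)),
    K ⟨x, hx⟩ ⟨y, hy⟩ ⊆ cN (Gg n vr ps) ⟨s, hs⟩

section

variable {K : {x : ℕ // x ∈ List.range (13 * n)} → {x : ℕ // x ∈ List.range (13 * n)} →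
    Set {x : ℕ // x ∈ List.range (13 * n)}}

theorem Lk.symm (hg : Good (Gg n vr ps) K) {s x y : ℕ} (h : Lk K vr ps s x y) :
    Lk K vr ps s y x := by
  intro hs hx hy
  rw [hg.symm]
  exact h hs hy hx

theorem lkU (h : Dat n vr) (hg : Good (Gg n vr ps) K) {s x y z : ℕ} (hs : s < 13 * n)
    (hk : 7 ≤ s % 13) (hN : ∀ v, Nb vr ps s v ↔ v = x ∨ v = y ∨ v = z)
    (hxy : x ≠ y) (hxz : x ≠ z) (hyz : y ≠ z) (hn : ¬ Lk K vr ps s x y) :
    Lk K vr ps s x z ∧ Lk K vr ps s y z := by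
  obtain ⟨⟨p1, p2, p3⟩, ⟨q1, q2, q3⟩, -⟩ := nb_spec (ps := ps) h hs hk
  have hm : ∀ v, Nb vr ps s v → v % 13 < 7 ∧ v < 13 * n := by
    rintro v (e | e | e) <;> rw [e] <;> constructor <;> assumption
  have hx := hm x ((hN x).2 (Or.inl rfl))
  have hy := hm y ((hN y).2 (Or.inr (Or.inl rfl)))
  have hz := hm z ((hN z).2 (Or.inr (Or.inr rfl)))
  have hsm : s ∈ List.range (13 * n) := List.mem_range.2 hs
  have hxm : x ∈ List.range (13 * n) := List.mem_range.2 hx.2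
  have hym : y ∈ List.range (13 * n) := List.mem_range.2 hy.2
  have hzm : z ∈ List.range (13 * n) := List.mem_range.2 hz.2
  have key := lemU hg (s := ⟨s, hsm⟩) (x := ⟨x, hxm⟩) (y := ⟨y, hym⟩) (z := ⟨z, hzm⟩) ?_ ?_
    (fun e => hxz (congrArg Subtype.val e)) (fun e => hyz (congrArg Subtype.val e)) ?_
  · exact ⟨fun _ _ _ => key.1, fun _ _ _ => key.2⟩
  · intro v
    have h1 : (Gg n vr ps).Adj ⟨s, hsm⟩ v ↔ adj vr ps s v.1 = true := Iff.rfl
    rw [h1, adj_S h hs hk, hN]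
    simp only [Subtype.ext_iff]
  · exact (adj_KK hx.1 hy.1).2 hxy
  · intro hK
    exact hn fun _ _ _ => hK

theorem lkTr (h : Dat n vr) (hg : Good (Gg n vr ps) K) {s t u x y z : ℕ} (hs : s < 13 * n)
    (ht : t < 13 * n) (hu : u < 13 * n) (ks : 7 ≤ s % 13) (kt : 7 ≤ t % 13) (ku : 7 ≤ u % 13)
    (hx : x < 13 * n) (hy : y < 13 * n) (hz : z < 13 * n) (kx : x % 13 < 7) (ky : y % 13 < 7)
    (kz : z % 13 < 7) (hxy : x ≠ y) (hyz : y ≠ z) (hxz : x ≠ z) (hst : s ≠ t) (htu : t ≠ u)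
    (hsu : s ≠ u) (h1 : Lk K vr ps s x y) (h2 : Lk K vr ps t y z) (h3 : Lk K vr ps u x z) :
    ∃ v, Nb vr ps s v ∧ Nb vr ps t v ∧ Nb vr ps u v := by
  have hsm : s ∈ List.range (13 * n) := List.mem_range.2 hs
  have htm : t ∈ List.range (13 * n) := List.mem_range.2 ht
  have hum : u ∈ List.range (13 * n) := List.mem_range.2 hu
  have hxm : x ∈ List.range (13 * n) := List.mem_range.2 hx
  have hym : y ∈ List.range (13 * n) := List.mem_range.2 hy
  have hzm : z ∈ List.range (13 * n) := List.mem_range.2 hz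
  obtain ⟨v, v1, v2, v3⟩ := lemTr hg (a := ⟨x, hxm⟩) (b := ⟨y, hym⟩) (c := ⟨z, hzm⟩)
    (s := ⟨s, hsm⟩) (t := ⟨t, htm⟩) (u := ⟨u, hum⟩) ((adj_KK kx ky).2 hxy) ((adj_KK ky kz).2 hyz)
    ((adj_KK kx kz).2 hxz) (h1 _ _ _) (h2 _ _ _) (h3 _ _ _) (fun e => hst (congrArg Subtype.val e))
    (fun e => htu (congrArg Subtype.val e)) (fun e => hsu (congrArg Subtype.val e))
    (adj_SS ks kt) (adj_SS kt ku) (adj_SS ks ku)
  exact ⟨v.1, (adj_S h hs ks _).1 v1, (adj_S h ht kt _).1 v2, (adj_S h hu ku _).1 v3⟩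

/-- The forced pair. -/
theorem forced (h : Dat n vr) (hg : Good (Gg n vr ps) K) {r : ℕ} (hr : r < n) :
    ∃ i, (i = 9 ∨ i = 10 ∨ i = 11) ∧ Lk K vr ps (13 * r + i) (lc vr ps r) (13 * r + 3) := by
  by_contra hcon
  push Not at hcon
  have f1 := hcon 9 (Or.inl rfl)
  have f2 := hcon 10 (Or.inr (Or.inl rfl))
  have f3 := hcon 11 (Or.inr (Or.inr rfl))
  have hl := lc_or vr ps r
  have hlt := h.lt r hr
  obtain ⟨a1, a2⟩ := lkU h hg (by omega) (by omega) (Nb9 vr ps r) (by omega) (by omega) (by omega) f1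
  obtain ⟨b1, b2⟩ := lkU h hg (by omega) (by omega) (Nb10 vr ps r) (by omega) (by omega) (by omega)
    f2
  obtain ⟨c1, c2⟩ := lkU h hg (by omega) (by omega) (Nb11 vr ps r) (by omega) (by omega) (by omega)
    f3
  by_cases g1 : Lk K vr ps (13 * r + 12) (13 * r + 4) (13 * r + 5)
  · obtain ⟨v, v1, v2, v3⟩ := lkTr (x := lc vr ps r) (y := 13 * r + 4) (z := 13 * r + 5) h hg
      (by omega) (by omega) (by omega) (by omega) (by omega) (by omega) (by omega) (by omega)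
      (by omega) (by omega) (by omega) (by omega) (by omega) (by omega) (by omega) (by omega)
      (by omega) (by omega) a1 g1 b1
    rw [Nb9] at v1
    rw [Nb12] at v2
    rw [Nb10] at v3
    omega
  · obtain ⟨g2, -⟩ := lkU h hg (by omega) (by omega) (Nb12 vr ps r) (by omega) (by omega) (by omega)
      g1
    obtain ⟨v, v1, v2, v3⟩ := lkTr (x := lc vr ps r) (y := 13 * r + 4) (z := 13 * r + 6) h hg
      (by omega) (by omega) (by omega) (by omega) (by omega) (by omega) (by omega) (by omega)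
      (by omega) (by omega) (by omega) (by omega) (by omega) (by omega) (by omega) (by omega)
      (by omega) (by omega) a1 g2 c1
    rw [Nb9] at v1
    rw [Nb12] at v2
    rw [Nb11] at v3
    omega

theorem sound (h : Dat n vr) (hg : Good (Gg n vr ps) K) : ∃ tt : ℕ → Bool, ∀ r < n,
    tt (vr r) = ps r ∨ tt (vr (nx r)) = ps (nx r) ∨ tt (vr (nx (nx r))) = ps (nx (nx r)) := by
  classical
  refine ⟨fun v => !decide (Lk K vr ps (13 * v + 7) (13 * v) (13 * v + 1)), ?_⟩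
  -- an unlinked pair gives a true literal
  have key : ∀ r < n, ¬ Lk K vr ps (13 * r + 8) (13 * r + 3) (13 * nx r + 3) →
      (!decide (Lk K vr ps (13 * vr r + 7) (13 * vr r) (13 * vr r + 1))) = ps r := by
    intro r hr hn
    have hlt := h.lt r hr
    have hnx := h.nx_lt hr
    have hnx' := nx_ne r
    obtain ⟨a1, -⟩ := lkU h hg (by omega) (by omega) (Nb8 vr ps r) (by omega) (by omega) (by omega)
      hn
    obtain ⟨i, hi, b1⟩ := forced h hg hr
    have hl := lc_or vr ps r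
    have hnb : ∀ v, Nb vr ps (13 * r + i) v → v = lc vr ps r ∨ v = 13 * r + 3 ∨
        v = 13 * r + 4 ∨ v = 13 * r + 5 ∨ v = 13 * r + 6 := by
      intro v hv
      rcases hi with e | e | e
      · rw [e, Nb9] at hv; omega
      · rw [e, Nb10] at hv; omega
      · rw [e, Nb11] at hv; omega
    have c1 : ¬ Lk K vr ps (13 * vr r + 7) (13 * vr r + 1) (lc vr ps r) := by
      intro hc
      obtain ⟨v, v1, v2, v3⟩ := lkTr (x := 13 * r + 3) (y := 13 * vr r + 1) (z := lc vr ps r) h hg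
        (by omega) (by omega) (by omega) (by omega) (by omega) (by omega) (by omega) (by omega)
        (by omega) (by omega) (by omega) (by omega) (by omega) (by omega) (by omega) (by omega)
        (by omega) (by omega) a1 hc (b1.symm hg)
      rw [Nb8] at v1
      rw [Nb7] at v2
      have v3' := hnb v v3
      omega
    cases hp : ps r
    · have hlc : lc vr ps r = 13 * vr r + 2 := by unfold lc; rw [hp]; simp
      rw [hlc] at c1
      have hN : ∀ v, Nb vr ps (13 * vr r + 7) v ↔ v = 13 * vr r + 1 ∨ v = 13 * vr r + 2 ∨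
          v = 13 * vr r := by
        intro v; rw [Nb7]; omega
      obtain ⟨d1, -⟩ := lkU h hg (by omega) (by omega) hN (by omega) (by omega) (by omega) c1
      simp [d1.symm hg]
    · have hlc : lc vr ps r = 13 * vr r := by unfold lc; rw [hp]; simp
      rw [hlc] at c1
      have : ¬ Lk K vr ps (13 * vr r + 7) (13 * vr r) (13 * vr r + 1) := fun hh => c1 (hh.symm hg)
      simp [this]
  intro r hr
  have hr1 := h.nx_lt hr
  have hr2 := h.nx_lt hr1
  by_cases c0 : Lk K vr ps (13 * r + 8) (13 * r + 3) (13 * nx r + 3)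
  · by_cases c1 : Lk K vr ps (13 * nx r + 8) (13 * nx r + 3) (13 * nx (nx r) + 3)
    · by_cases c2 : Lk K vr ps (13 * nx (nx r) + 8) (13 * nx (nx r) + 3) (13 * nx (nx (nx r)) + 3)
      · exfalso
        rw [nx3] at c2
        have e1 := nx_ne r
        have e2 := nx_ne (nx r)
        have e3 := nx_ne2 r
        obtain ⟨v, v1, v2, v3⟩ := lkTr (x := 13 * r + 3) (y := 13 * nx r + 3)
          (z := 13 * nx (nx r) + 3) h hg
          (by omega) (by omega) (by omega) (by omega) (by omega) (by omega) (by omega) (by omega)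
          (by omega) (by omega) (by omega) (by omega) (by omega) (by omega) (by omega) (by omega)
          (by omega) (by omega) c0 c1 (c2.symm hg)
        rw [Nb8] at v1 v2 v3
        rw [nx3] at v3
        have f1 := h.d1 r hr
        have f2 := h.d2 hr
        have f3 := h.d3 hr
        omega
      · exact Or.inr (Or.inr (key _ hr2 c2))
    · exact Or.inr (Or.inl (key _ hr1 c1))
  · exact Or.inl (key _ hr c0)

end

end Pool.Agent.Q227.CG
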