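import Pool.Agent.H601R2.PCG.KFun

/-!
# Clique graphs among split graphs: linked pairs and centres
-/

set_option autoImplicit false

namespace Pool.Agent.Q227.CG

open Pool.Agent.H601R2.PCG

variable {V : Type} {G : SimpleGraph V} {K : V → V → Set V}

/-- The closed neighbourhood. -/
def cN (G : SimpleGraph V) (s : V) : Set V := {v | v = s ∨ G.Adj s v}

theorem good_sub (h : Good G K) {a b s : V} (hab : G.Adj a b) (hs : s ∈ K a b) :
    K a b ⊆ cN G s := by
  intro c hc
  by_cases e : c = s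
  · exact Or.inl e
  · exact Or.inr ((h.complete a b hab) hs hc (Ne.symm e))

theorem lemU (h : Good G K) {s x y z : V} (hN : ∀ v, G.Adj s v ↔ v = x ∨ v = y ∨ v = z)
    (hxy : G.Adj x y) (hxz : x ≠ z) (hyz : y ≠ z) (hn : ¬ K x y ⊆ cN G s) :
    K x z ⊆ cN G s ∧ K y z ⊆ cN G s := by
  have hsx : G.Adj s x := (hN x).2 (Or.inl rfl)
  have hsy : G.Adj s y := (hN y).2 (Or.inr (Or.inl rfl))
  have hns : s ∉ K x y := fun hs => hn (good_sub h hxy hs)
  obtain ⟨v, v1, v2, v3⟩ := h.tri s x y hsx hxy hsy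
  have hle1 : K s x ⊆ cN G s := good_sub h hsx (h.left _ _ hsx)
  have hle2 : K s y ⊆ cN G s := good_sub h hsy (h.left _ _ hsy)
  have hv : v = x ∨ v = y ∨ v = z := by
    rcases hle1 v1 with e | e
    · exact absurd (e ▸ v2) hns
    · exact (hN v).1 e
  rcases hv with e | e | e
  · rw [e] at v3
    exact absurd ((h.mono s y x y hsy v3 (h.right hsy) hxy.ne).trans hle2) hn
  · rw [e] at v1
    exact absurd ((h.mono s x x y hsx (h.right hsx) v1 hxy.ne).trans hle1) hn
  · rw [e] at v1 v3
    exact ⟨(h.mono s x x z hsx (h.right hsx) v1 hxz).trans hle1,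
      (h.mono s y y z hsy (h.right hsy) v3 hyz).trans hle2⟩

theorem lemTr (h : Good G K) {a b c s t u : V} (hab : G.Adj a b) (hbc : G.Adj b c)
    (hac : G.Adj a c) (h1 : K a b ⊆ cN G s) (h2 : K b c ⊆ cN G t) (h3 : K a c ⊆ cN G u)
    (st : s ≠ t) (tu : t ≠ u) (su : s ≠ u) (nst : ¬ G.Adj s t) (ntu : ¬ G.Adj t u)
    (nsu : ¬ G.Adj s u) : ∃ v, G.Adj s v ∧ G.Adj t v ∧ G.Adj u v := by
  obtain ⟨v, v1, v2, v3⟩ := h.tri a b c hab hbc hac
  rcases h1 v1 with e | e
  · subst e
    rcases h2 v2 with e | e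
    · exact absurd e st
    · exact absurd e.symm nst
  rcases h2 v2 with e' | e'
  · subst e'
    exact absurd e nst
  rcases h3 v3 with e'' | e''
  · subst e''
    exact absurd e nsu
  exact ⟨v, e, e', e''⟩

/-- The members of the family. -/
def Mmb (S : Set V) (m e1 e2 : V → V) (M : Set V) : Prop :=
  M = Sᶜ ∨ ∃ s ∈ S, M = {s, m s, e1 s} ∨ M = {s, m s, e2 s}

/-- The family generated by the members. -/
def KK (S : Set V) (m e1 e2 : V → V) (a b : V) : Set V :=
  {c | ∀ M, Mmb S m e1 e2 M → a ∈ M → b ∈ M → c ∈ M}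

theorem good_of {S : Set V} {R : V → V → Prop} (hR : ∀ x y, R x y → R y x)
    (htf : ∀ x y z, R x y → R y z → R x z → False)
    (hst : ∀ a ∈ S, ∀ b ∈ S, ¬ G.Adj a b) (hco : ∀ a, a ∉ S → ∀ b, b ∉ S → a ≠ b → G.Adj a b)
    (hc : ∀ s ∈ S, ∃ m e1 e2, (∀ v, G.Adj s v ↔ v = m ∨ v = e1 ∨ v = e2) ∧ R m e1 ∧ R m e2) :
    ∃ K, Good G K := by
  classical
  have hc' : ∀ s, ∃ m e1 e2, s ∈ S →
      (∀ v, G.Adj s v ↔ v = m ∨ v = e1 ∨ v = e2) ∧ R m e1 ∧ R m e2 := by
    intro s
    by_cases hs : s ∈ S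
    · obtain ⟨m, e1, e2, h⟩ := hc s hs
      exact ⟨m, e1, e2, fun _ => h⟩
    · exact ⟨s, s, s, fun h => absurd h hs⟩
  choose m e1 e2 hme using hc'
  have hN : ∀ s ∈ S, ∀ v, G.Adj s v ↔ v = m s ∨ v = e1 s ∨ v = e2 s := fun s hs => (hme s hs).1
  have R1 : ∀ s ∈ S, R (m s) (e1 s) := fun s hs => (hme s hs).2.1
  have R2 : ∀ s ∈ S, R (m s) (e2 s) := fun s hs => (hme s hs).2.2
  have nm : ∀ s ∈ S, m s ∉ S := fun s hs h => hst s hs _ h ((hN s hs _).2 (Or.inl rfl))
  have n1 : ∀ s ∈ S, e1 s ∉ S := fun s hs h =>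
    hst s hs _ h ((hN s hs _).2 (Or.inr (Or.inl rfl)))
  have n2 : ∀ s ∈ S, e2 s ∉ S := fun s hs h =>
    hst s hs _ h ((hN s hs _).2 (Or.inr (Or.inr rfl)))
  -- a pair outside `S` in a small member is linked
  have lnk : ∀ M, Mmb S m e1 e2 M → ∀ x ∈ M, ∀ y ∈ M, x ∉ S → y ∉ S → x ≠ y →
      M ≠ Sᶜ → R x y := by
    intro M hM x hx y hy hxS hyS hxy hne
    rcases hM with h | ⟨s, hs, h | h⟩
    · exact absurd h hne
    · subst h
      simp only [Set.mem_insert_iff, Set.mem_singleton_iff] at hx hy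
      have a1 : x ≠ s := fun e => hxS (e ▸ hs)
      have a2 : y ≠ s := fun e => hyS (e ▸ hs)
      rcases hx with hx | hx | hx
      · exact absurd hx a1
      · rcases hy with hy | hy | hy
        · exact absurd hy a2
        · exact absurd (hx.trans hy.symm) hxy
        · rw [hx, hy]; exact R1 s hs
      · rcases hy with hy | hy | hy
        · exact absurd hy a2
        · rw [hx, hy]; exact hR _ _ (R1 s hs)
        · exact absurd (hx.trans hy.symm) hxy
    · subst h
      simp only [Set.mem_insert_iff, Set.mem_singleton_iff] at hx hy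
      have a1 : x ≠ s := fun e => hxS (e ▸ hs)
      have a2 : y ≠ s := fun e => hyS (e ▸ hs)
      rcases hx with hx | hx | hx
      · exact absurd hx a1
      · rcases hy with hy | hy | hy
        · exact absurd hy a2
        · exact absurd (hx.trans hy.symm) hxy
        · rw [hx, hy]; exact R2 s hs
      · rcases hy with hy | hy | hy
        · exact absurd hy a2
        · rw [hx, hy]; exact hR _ _ (R2 s hs)
        · exact absurd (hx.trans hy.symm) hxy
  -- members are complete
  have mcl : ∀ M, Mmb S m e1 e2 M → G.IsClique M := by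
    intro M hM x hx y hy hxy
    by_cases hxS : x ∈ S
    · rcases hM with h | ⟨s, hs, h | h⟩
      · subst h; exact absurd hxS hx
      · subst h
        simp only [Set.mem_insert_iff, Set.mem_singleton_iff] at hx hy
        have hxs : x = s := by
          rcases hx with hx | hx | hx
          · exact hx
          · exact absurd (hx ▸ hxS) (nm s hs)
          · exact absurd (hx ▸ hxS) (n1 s hs)
        subst hxs
        rcases hy with hy | hy | hy
        · exact absurd hy.symm hxy
        · exact (hN x hs y).2 (Or.inl hy)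
        · exact (hN x hs y).2 (Or.inr (Or.inl hy))
      · subst h
        simp only [Set.mem_insert_iff, Set.mem_singleton_iff] at hx hy
        have hxs : x = s := by
          rcases hx with hx | hx | hx
          · exact hx
          · exact absurd (hx ▸ hxS) (nm s hs)
          · exact absurd (hx ▸ hxS) (n2 s hs)
        subst hxs
        rcases hy with hy | hy | hy
        · exact absurd hy.symm hxy
        · exact (hN x hs y).2 (Or.inl hy)
        · exact (hN x hs y).2 (Or.inr (Or.inr hy))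
    · by_cases hyS : y ∈ S
      · rcases hM with h | ⟨s, hs, h | h⟩
        · subst h; exact absurd hyS hy
        · subst h
          simp only [Set.mem_insert_iff, Set.mem_singleton_iff] at hx hy
          have hys : y = s := by
            rcases hy with hy | hy | hy
            · exact hy
            · exact absurd (hy ▸ hyS) (nm s hs)
            · exact absurd (hy ▸ hyS) (n1 s hs)
          subst hys
          rcases hx with hx | hx | hx
          · exact absurd hx hxy
          · exact ((hN y hs x).2 (Or.inl hx)).symm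
          · exact ((hN y hs x).2 (Or.inr (Or.inl hx))).symm
        · subst h
          simp only [Set.mem_insert_iff, Set.mem_singleton_iff] at hx hy
          have hys : y = s := by
            rcases hy with hy | hy | hy
            · exact hy
            · exact absurd (hy ▸ hyS) (nm s hs)
            · exact absurd (hy ▸ hyS) (n2 s hs)
          subst hys
          rcases hx with hx | hx | hx
          · exact absurd hx hxy
          · exact ((hN y hs x).2 (Or.inl hx)).symm
          · exact ((hN y hs x).2 (Or.inr (Or.inr hx))).symm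
      · exact hco x hxS y hyS hxy
  -- every edge is in a member
  have cov : ∀ a b, G.Adj a b → ∃ M, Mmb S m e1 e2 M ∧ a ∈ M ∧ b ∈ M := by
    have key : ∀ a ∈ S, ∀ b, G.Adj a b → ∃ M, Mmb S m e1 e2 M ∧ a ∈ M ∧ b ∈ M := by
      intro a ha b hab
      rcases (hN a ha b).1 hab with h | h | h
      · exact ⟨{a, m a, e1 a}, Or.inr ⟨a, ha, Or.inl rfl⟩, by simp, by simp [h]⟩
      · exact ⟨{a, m a, e1 a}, Or.inr ⟨a, ha, Or.inl rfl⟩, by simp, by simp [h]⟩
      · exact ⟨{a, m a, e2 a}, Or.inr ⟨a, ha, Or.inr rfl⟩, by simp, by simp [h]⟩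
    intro a b hab
    by_cases ha : a ∈ S
    · exact key a ha b hab
    · by_cases hb : b ∈ S
      · obtain ⟨M, h1, h2, h3⟩ := key b hb a hab.symm
        exact ⟨M, h1, h3, h2⟩
      · exact ⟨Sᶜ, Or.inl rfl, ha, hb⟩
  -- the triangle condition with a vertex of `S`
  have tri1 : ∀ s ∈ S, ∀ b c, G.Adj s b → G.Adj s c → b ≠ c →
      m s ∈ KK S m e1 e2 s b ∧ m s ∈ KK S m e1 e2 s c ∧ m s ∈ KK S m e1 e2 b c := by
    intro s hs b c hb hc hbc
    have h1 : ∀ M, Mmb S m e1 e2 M → s ∈ M → m s ∈ M := by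
      rintro M (rfl | ⟨t, ht, rfl | rfl⟩) hsM
      · exact absurd hs hsM
      · simp only [Set.mem_insert_iff, Set.mem_singleton_iff] at hsM
        rcases hsM with e | e | e
        · subst e; simp
        · exact absurd (e ▸ hs) (nm t ht)
        · exact absurd (e ▸ hs) (n1 t ht)
      · simp only [Set.mem_insert_iff, Set.mem_singleton_iff] at hsM
        rcases hsM with e | e | e
        · subst e; simp
        · exact absurd (e ▸ hs) (nm t ht)
        · exact absurd (e ▸ hs) (n2 t ht)
    refine ⟨fun M hM hsM _ => h1 M hM hsM, fun M hM hsM _ => h1 M hM hsM, ?_⟩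
    intro M hM hbM hcM
    by_cases hMS : M = Sᶜ
    · rw [hMS]; exact nm s hs
    have hbS : b ∉ S := fun h => hst s hs b h hb
    have hcS : c ∉ S := fun h => hst s hs c h hc
    have hbc' := lnk M hM b hbM c hcM hbS hcS hbc hMS
    rcases (hN s hs b).1 hb with hb | hb | hb
    · exact hb ▸ hbM
    · rcases (hN s hs c).1 hc with hc | hc | hc
      · exact hc ▸ hcM
      · exact absurd (hb.trans hc.symm) hbc
      · rw [hb, hc] at hbc'
        exact (htf _ _ _ (hR _ _ (R1 s hs)) (R2 s hs) hbc').elim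
    · rcases (hN s hs c).1 hc with hc | hc | hc
      · exact hc ▸ hcM
      · rw [hb, hc] at hbc'
        exact (htf _ _ _ (hR _ _ (R2 s hs)) (R1 s hs) hbc').elim
      · exact absurd (hb.trans hc.symm) hbc
  have ksym : ∀ a b, KK S m e1 e2 a b = KK S m e1 e2 b a := by
    intro a b
    ext c
    exact ⟨fun h M hM h1 h2 => h M hM h2 h1, fun h M hM h1 h2 => h M hM h2 h1⟩
  refine ⟨KK S m e1 e2, ⟨ksym, fun a b _ M _ h _ => h, ?_, ?_, ?_⟩⟩
  · intro a b hab x hx y hy hxy
    obtain ⟨M, hM, h1, h2⟩ := cov a b hab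
    exact mcl M hM (hx M hM h1 h2) (hy M hM h1 h2) hxy
  · intro a b x y _ hx hy _ c hc M hM h1 h2
    exact hc M hM (hx M hM h1 h2) (hy M hM h1 h2)
  · intro a b c hab hbc hac
    by_cases ha : a ∈ S
    · obtain ⟨h1, h2, h3⟩ := tri1 a ha b c hab hac hbc.ne
      exact ⟨_, h1, h3, h2⟩
    by_cases hb : b ∈ S
    · obtain ⟨h1, h2, h3⟩ := tri1 b hb a c hab.symm hbc hac.ne
      exact ⟨_, by rw [ksym]; exact h1, h2, h3⟩
    by_cases hc : c ∈ S
    · obtain ⟨h1, h2, h3⟩ := tri1 c hc a b hac.symm hbc.symm hab.ne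
      exact ⟨_, h3, by rw [ksym]; exact h2, by rw [ksym]; exact h1⟩
    -- all outside
    have one : ∀ x y z, x ∉ S → y ∉ S → z ∉ S → x ≠ y → ¬ R x y → z ∈ KK S m e1 e2 x y := by
      intro x y z hx hy hz hxy hn M hM h1 h2
      by_cases hMS : M = Sᶜ
      · rw [hMS]; exact hz
      · exact absurd (lnk M hM x h1 y h2 hx hy hxy hMS) hn
    by_cases r1 : R a b
    · by_cases r2 : R b c
      · have r3 : ¬ R a c := fun h => htf _ _ _ r1 r2 h
        exact ⟨b, fun M _ _ h => h, fun M _ h _ => h, one a c b ha hc hb hac.ne r3⟩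
      · exact ⟨a, fun M _ h _ => h, one b c a hb hc ha hbc.ne r2, fun M _ h _ => h⟩
    · exact ⟨c, one a b c ha hb hc hab.ne r1, fun M _ _ h => h, fun M _ _ h => h⟩

end Pool.Agent.Q227.CG
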