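import Pool.Agent.Q227.CG.Math
import Pool.Agent.H679R2.Oct.Mem
import Pool.Agent.H671R2.PolyAuto

/-!
# Clique graphs: membership in `NP`
-/

set_option autoImplicit false

namespace Pool.Agent.Q227.CG

open Pool.Agent.NPC Pool.Agent.NPC.H679 Pool.Agent.H679R2 Pool.Agent.H601R2.PCG

/-- Presented graphs. -/
abbrev PG : Type := List ℕ × List (ℕ × ℕ)

/-- Presented families of sets. -/
abbrev Fm : Type := List (ℕ × ℕ × ℕ)

attribute [local fun_prop] adjb_poly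

/-- Test of the symmetry of the family. -/
def g1 (I : PG) (w : Fm) (a b : ℕ) : Bool :=
  I.1.all fun c => decide (decide ((a, b, c) ∈ w) = decide ((b, a, c) ∈ w))

/-- Test of monotonicity. -/
def g2 (I : PG) (w : Fm) (a b x y : ℕ) : Bool :=
  I.1.all fun z => !decide ((x, y, z) ∈ w) || decide ((a, b, z) ∈ w)

/-- Test of completeness and monotonicity. -/
def g3 (I : PG) (w : Fm) (a b : ℕ) : Bool :=
  I.1.all fun x => I.1.all fun y => !decide ((a, b, x) ∈ w) || (!decide ((a, b, y) ∈ w) ||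
    (decide (x = y) || (adjb I x y && g2 I w a b x y)))

/-- Test of the triangle condition. -/
def g4 (I : PG) (w : Fm) (a b c : ℕ) : Bool :=
  I.1.any fun v => decide ((a, b, v) ∈ w) && (decide ((b, c, v) ∈ w) && decide ((a, c, v) ∈ w))

/-- Test of a family. -/
def gb (I : PG) (w : Fm) : Bool :=
  !decide (I.1 = []) && I.1.all fun a => I.1.all fun b => g1 I w a b &&
    (!adjb I a b || ((decide ((a, b, a) ∈ w) && g3 I w a b) &&
      I.1.all fun c => !adjb I b c || (!adjb I a c || g4 I w a b c)))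

theorem g1_poly : Poly (fun p : (PG × Fm) × (ℕ × ℕ) => g1 p.1.1 p.1.2 p.2.1 p.2.2) := by
  unfold g1
  fun_prop

theorem g2_poly : Poly (fun p : (PG × Fm) × (ℕ × ℕ) × (ℕ × ℕ) =>
    g2 p.1.1 p.1.2 p.2.1.1 p.2.1.2 p.2.2.1 p.2.2.2) := by
  unfold g2
  fun_prop

theorem g4_poly : Poly (fun p : (PG × Fm) × (ℕ × ℕ × ℕ) =>
    g4 p.1.1 p.1.2 p.2.1 p.2.2.1 p.2.2.2) := by
  unfold g4
  fun_prop

theorem g3_poly : Poly (fun p : (PG × Fm) × (ℕ × ℕ) => g3 p.1.1 p.1.2 p.2.1 p.2.2) := by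
  unfold g3
  have h2 : Poly (fun q : (((PG × Fm) × (ℕ × ℕ)) × ℕ) × ℕ =>
      g2 q.1.1.1.1 q.1.1.1.2 q.1.1.2.1 q.1.1.2.2 q.1.2 q.2) :=
    g2_poly.comp (f := fun q : (((PG × Fm) × (ℕ × ℕ)) × ℕ) × ℕ =>
      (q.1.1.1, (q.1.1.2.1, q.1.1.2.2), (q.1.2, q.2))) (by fun_prop)
  fun_prop

theorem gb_poly : Poly (fun p : PG × Fm => gb p.1 p.2) := by
  unfold gb
  have h1 : Poly (fun q : ((PG × Fm) × ℕ) × ℕ => g1 q.1.1.1 q.1.1.2 q.1.2 q.2) :=
    g1_poly.comp (f := fun q : ((PG × Fm) × ℕ) × ℕ => (q.1.1, (q.1.2, q.2))) (by fun_prop)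
  have h3 : Poly (fun q : ((PG × Fm) × ℕ) × ℕ => g3 q.1.1.1 q.1.1.2 q.1.2 q.2) :=
    g3_poly.comp (f := fun q : ((PG × Fm) × ℕ) × ℕ => (q.1.1, (q.1.2, q.2))) (by fun_prop)
  have h4 : Poly (fun q : (((PG × Fm) × ℕ) × ℕ) × ℕ => g4 q.1.1.1.1 q.1.1.1.2 q.1.1.2 q.1.2 q.2) :=
    g4_poly.comp (f := fun q : (((PG × Fm) × ℕ) × ℕ) × ℕ =>
      (q.1.1.1, (q.1.1.2, q.1.2, q.2))) (by fun_prop)
  fun_prop

end Pool.Agent.Q227.CG
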