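import Pool.Agent.Q227.CG.Mem
import Pool.Agent.Q227.CG.Defs

/-!
# Clique graphs: membership in `NP`
-/

set_option autoImplicit false

namespace Pool.Agent.Q227.CG

open Pool.Agent.NPC Pool.Agent.NPC.H679 Pool.Agent.H679R2 Pool.Agent.H601R2.PCG

attribute [local fun_prop] adjb_poly

theorem g1_iff (I : PG) (w : Fm) (a b : ℕ) : g1 I w a b = true ↔
    ∀ c ∈ I.1, (a, b, c) ∈ w ↔ (b, a, c) ∈ w := by
  simp only [g1, List.all_eq_true, decide_eq_true_eq, decide_eq_decide]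

theorem g2_iff (I : PG) (w : Fm) (a b x y : ℕ) : g2 I w a b x y = true ↔
    ∀ z ∈ I.1, (x, y, z) ∈ w → (a, b, z) ∈ w := by
  simp only [g2, List.all_eq_true, Bool.or_eq_true, Bool.not_eq_true', decide_eq_true_eq,
    decide_eq_false_iff_not]
  exact forall₂_congr fun z _ => by tauto

theorem g3_iff (I : PG) (w : Fm) (a b : ℕ) : g3 I w a b = true ↔
    ∀ x ∈ I.1, ∀ y ∈ I.1, (a, b, x) ∈ w → (a, b, y) ∈ w → x ≠ y →
      adjb I x y = true ∧ ∀ z ∈ I.1, (x, y, z) ∈ w → (a, b, z) ∈ w := by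
  simp only [g3, List.all_eq_true, Bool.or_eq_true, Bool.not_eq_true', decide_eq_true_eq,
    decide_eq_false_iff_not, Bool.and_eq_true, g2_iff]
  exact forall₂_congr fun x _ => forall₂_congr fun y _ => by tauto

theorem g4_iff (I : PG) (w : Fm) (a b c : ℕ) : g4 I w a b c = true ↔
    ∃ v ∈ I.1, (a, b, v) ∈ w ∧ (b, c, v) ∈ w ∧ (a, c, v) ∈ w := by
  simp only [g4, List.any_eq_true, Bool.and_eq_true, decide_eq_true_eq]

theorem gb_iff (I : PG) (w : Fm) : gb I w = true ↔ I.1 ≠ [] ∧ ∀ a ∈ I.1, ∀ b ∈ I.1,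
    (∀ c ∈ I.1, (a, b, c) ∈ w ↔ (b, a, c) ∈ w) ∧ (adjb I a b = true → (a, b, a) ∈ w ∧
      (∀ x ∈ I.1, ∀ y ∈ I.1, (a, b, x) ∈ w → (a, b, y) ∈ w → x ≠ y →
        adjb I x y = true ∧ ∀ z ∈ I.1, (x, y, z) ∈ w → (a, b, z) ∈ w) ∧
      ∀ c ∈ I.1, adjb I b c = true → adjb I a c = true →
        ∃ v ∈ I.1, (a, b, v) ∈ w ∧ (b, c, v) ∈ w ∧ (a, c, v) ∈ w) := by
  unfold gb
  simp only [List.all_eq_true, Bool.or_eq_true, Bool.not_eq_true', decide_eq_true_eq,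
    decide_eq_false_iff_not, Bool.and_eq_true, g1_iff, g3_iff, g4_iff]
  refine and_congr Iff.rfl (forall₂_congr fun a _ => forall₂_congr fun b _ =>
    and_congr Iff.rfl ?_)
  have imp : ∀ (t : Bool) (Q : Prop), (t = false ∨ Q) ↔ (t = true → Q) := by
    intro t Q
    cases t <;> simp
  rw [imp]
  refine imp_congr Iff.rfl ?_
  rw [and_assoc]
  refine and_congr Iff.rfl (and_congr Iff.rfl (forall₂_congr fun c _ => ?_))
  rw [imp, imp]

theorem sz_filter_le' {α : Type} [TEnc α] (l : List α) (p : α → Bool) :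
    sz (l.filter p) ≤ sz l := by
  induction l with
  | nil => simp
  | cons a l ih =>
    by_cases h : p a
    · rw [List.filter_cons_of_pos h]
      simp only [sz_list_cons]
      omega
    · rw [List.filter_cons_of_neg h]
      simp only [sz_list_cons]
      omega

/-- All triples of vertices. -/
def trip (I : PG) : Fm := I.1 ×ˢ (I.1 ×ˢ I.1)

theorem trip_poly : Poly trip := by
  unfold trip
  fun_prop

theorem cg_cert : ∃ p : Polynomial ℕ, ∀ I : PG, IsCliqueGraph (toGraph I) →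
    ∃ w : Fm, sz w ≤ p.eval (sz I) ∧ gb I w = true := by
  classical
  obtain ⟨p, hp⟩ := trip_poly.sz_le
  refine ⟨p, fun I => ?_⟩
  rw [isCliqueGraph_iff]
  rintro ⟨⟨v0⟩, K, hK⟩
  obtain ⟨w, hw, hmem⟩ : ∃ w : Fm, sz w ≤ sz (trip I) ∧
      ∀ a b c : {v : ℕ // v ∈ I.1}, (a.1, b.1, c.1) ∈ w ↔ c ∈ K a b := by
    refine ⟨(trip I).filter fun t =>
        if h : t.1 ∈ I.1 ∧ t.2.1 ∈ I.1 ∧ t.2.2 ∈ I.1 then
          decide ((⟨t.2.2, h.2.2⟩ : {v : ℕ // v ∈ I.1}) ∈ K ⟨t.1, h.1⟩ ⟨t.2.1, h.2.1⟩)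
        else false, sz_filter_le' _ _, ?_⟩
    intro a b c
    rw [List.mem_filter]
    have h1 : (a.1, b.1, c.1) ∈ trip I := by
      unfold trip
      rw [List.mem_product, List.mem_product]
      exact ⟨a.2, b.2, c.2⟩
    have h2 : a.1 ∈ I.1 ∧ b.1 ∈ I.1 ∧ c.1 ∈ I.1 := ⟨a.2, b.2, c.2⟩
    simp only [h1, true_and]
    rw [dif_pos h2, decide_eq_true_eq]
  refine ⟨w, hw.trans (hp I), (gb_iff _ _).2 ⟨List.ne_nil_of_mem v0.2, ?_⟩⟩
  intro a ha b hb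
  refine ⟨fun c hc => ?_, fun hab => ⟨?_, ?_, ?_⟩⟩
  · rw [hmem ⟨a, ha⟩ ⟨b, hb⟩ ⟨c, hc⟩, hmem ⟨b, hb⟩ ⟨a, ha⟩ ⟨c, hc⟩, hK.symm]
  · rw [hmem ⟨a, ha⟩ ⟨b, hb⟩ ⟨a, ha⟩]
    exact hK.left _ _ ((adjb_iff I ⟨a, ha⟩ ⟨b, hb⟩).1 hab)
  · intro x hx y hy hx' hy' hxy
    have hab' := (adjb_iff I ⟨a, ha⟩ ⟨b, hb⟩).1 hab
    rw [hmem ⟨a, ha⟩ ⟨b, hb⟩ ⟨x, hx⟩] at hx'
    rw [hmem ⟨a, ha⟩ ⟨b, hb⟩ ⟨y, hy⟩] at hy'
    have hne : (⟨x, hx⟩ : {v : ℕ // v ∈ I.1}) ≠ ⟨y, hy⟩ := fun h => hxy (congrArg Subtype.val h)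
    refine ⟨(adjb_iff I ⟨x, hx⟩ ⟨y, hy⟩).2 (hK.complete _ _ hab' hx' hy' hne), ?_⟩
    intro z hz hz'
    rw [hmem ⟨x, hx⟩ ⟨y, hy⟩ ⟨z, hz⟩] at hz'
    rw [hmem ⟨a, ha⟩ ⟨b, hb⟩ ⟨z, hz⟩]
    exact hK.mono _ _ _ _ hab' hx' hy' hne hz'
  · intro c hc hbc hac
    obtain ⟨v, h1, h2, h3⟩ := hK.tri ⟨a, ha⟩ ⟨b, hb⟩ ⟨c, hc⟩
      ((adjb_iff I ⟨a, ha⟩ ⟨b, hb⟩).1 hab) ((adjb_iff I ⟨b, hb⟩ ⟨c, hc⟩).1 hbc)
      ((adjb_iff I ⟨a, ha⟩ ⟨c, hc⟩).1 hac)
    exact ⟨v.1, v.2, (hmem ⟨a, ha⟩ ⟨b, hb⟩ v).2 h1, (hmem ⟨b, hb⟩ ⟨c, hc⟩ v).2 h2,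
      (hmem ⟨a, ha⟩ ⟨c, hc⟩ v).2 h3⟩

theorem cg_of_gb {I : PG} {w : Fm} (hw : gb I w = true) : IsCliqueGraph (toGraph I) := by
  rw [isCliqueGraph_iff]
  rw [gb_iff] at hw
  obtain ⟨hne, h⟩ := hw
  obtain ⟨v0, hv0⟩ := List.exists_mem_of_ne_nil _ hne
  refine ⟨⟨⟨v0, hv0⟩⟩, fun a b => {c | (a.1, b.1, c.1) ∈ w}, ⟨?_, ?_, ?_, ?_, ?_⟩⟩
  · intro a b
    ext c
    exact (h a.1 a.2 b.1 b.2).1 c.1 c.2
  · intro a b hab
    exact ((h a.1 a.2 b.1 b.2).2 ((adjb_iff I a b).2 hab)).1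
  · intro a b hab x hx y hy hxy
    exact (adjb_iff I x y).1 ((((h a.1 a.2 b.1 b.2).2 ((adjb_iff I a b).2 hab)).2.1 x.1 x.2
      y.1 y.2 hx hy fun e => hxy (Subtype.ext e)).1)
  · intro a b x y hab hx hy hxy z hz
    exact (((h a.1 a.2 b.1 b.2).2 ((adjb_iff I a b).2 hab)).2.1 x.1 x.2
      y.1 y.2 hx hy fun e => hxy (Subtype.ext e)).2 z.1 z.2 hz
  · intro a b c hab hbc hac
    obtain ⟨v, hv, h1, h2, h3⟩ := ((h a.1 a.2 b.1 b.2).2 ((adjb_iff I a b).2 hab)).2.2 c.1 c.2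
      ((adjb_iff I b c).2 hbc) ((adjb_iff I a c).2 hac)
    exact ⟨⟨v, hv⟩, h1, h2, h3⟩

/-! ### The class of instances -/

/-- Test of the degree. -/
def deg3 (I : Inst) (u : ℕ) : Bool :=
  I.1.1.any fun x => I.1.1.any fun y => I.1.1.any fun z =>
    (!decide (x = y) && (!decide (x = z) && !decide (y = z))) &&
      I.1.1.all fun v => decide (adjb I.1 u v = (decide (v = x) || (decide (v = y) ||
        decide (v = z))))

/-- Test of the class. -/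
def vb (I : Inst) : Bool :=
  (I.1.1.all fun u => I.1.1.all fun v => !decide (u ∈ I.2) || (!decide (v ∈ I.2) ||
    !adjb I.1 u v)) &&
  ((I.1.1.all fun u => I.1.1.all fun v => decide (u ∈ I.2) || (decide (v ∈ I.2) ||
    (decide (u = v) || adjb I.1 u v))) &&
  I.1.1.all fun u => !decide (u ∈ I.2) || deg3 I u)

theorem deg3_poly : Poly (fun p : Inst × ℕ => deg3 p.1 p.2) := by
  unfold deg3
  fun_prop

theorem vb_poly : Poly vb := by
  unfold vb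
  have h := deg3_poly
  fun_prop

theorem deg3_iff (I : Inst) (u : {v : ℕ // v ∈ I.1.1}) : deg3 I u.1 = true ↔
    ((toGraph I.1).neighborSet u).ncard = 3 := by
  rw [Set.ncard_eq_three]
  unfold deg3
  simp only [List.any_eq_true, List.all_eq_true, Bool.and_eq_true, Bool.not_eq_true',
    decide_eq_true_eq, decide_eq_false_iff_not]
  constructor
  · rintro ⟨x, hx, y, hy, z, hz, ⟨h1, h2, h3⟩, h⟩
    refine ⟨⟨x, hx⟩, ⟨y, hy⟩, ⟨z, hz⟩, fun e => h1 (congrArg Subtype.val e),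
      fun e => h2 (congrArg Subtype.val e), fun e => h3 (congrArg Subtype.val e), ?_⟩
    ext v
    rw [SimpleGraph.mem_neighborSet, ← adjb_iff, h v.1 v.2]
    simp only [Bool.or_eq_true, decide_eq_true_eq, Set.mem_insert_iff, Set.mem_singleton_iff,
      Subtype.ext_iff]
  · rintro ⟨x, y, z, h1, h2, h3, h⟩
    refine ⟨x.1, x.2, y.1, y.2, z.1, z.2, ⟨fun e => h1 (Subtype.ext e), fun e => h2 (Subtype.ext e),
      fun e => h3 (Subtype.ext e)⟩, fun v hv => ?_⟩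
    have h4 : (⟨v, hv⟩ : {v : ℕ // v ∈ I.1.1}) ∈ (toGraph I.1).neighborSet u ↔
        (⟨v, hv⟩ : {v : ℕ // v ∈ I.1.1}) ∈ ({x, y, z} : Set _) := by rw [h]
    rw [SimpleGraph.mem_neighborSet, ← adjb_iff] at h4
    rw [Bool.eq_iff_iff, h4]
    simp only [Bool.or_eq_true, decide_eq_true_eq, Set.mem_insert_iff, Set.mem_singleton_iff,
      Subtype.ext_iff]

theorem vb_iff (I : Inst) : vb I = true ↔ ThreeSplit3 I := by
  unfold vb ThreeSplit3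
  simp only [List.all_eq_true, Bool.and_eq_true, Bool.or_eq_true, Bool.not_eq_true',
    decide_eq_true_eq, decide_eq_false_iff_not]
  refine and_congr ⟨?_, ?_⟩ (and_congr ⟨?_, ?_⟩ ⟨?_, ?_⟩)
  · intro h u v hu hv hadj
    rcases h u.1 u.2 v.1 v.2 with h | h | h
    · exact h hu
    · exact h hv
    · rw [← adjb_iff, h] at hadj
      exact Bool.noConfusion hadj
  · intro h u hu v hv
    by_cases h1 : u ∈ I.2
    · by_cases h2 : v ∈ I.2
      · have := h ⟨u, hu⟩ ⟨v, hv⟩ h1 h2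
        rw [← adjb_iff] at this
        exact Or.inr (Or.inr (by simpa using this))
      · exact Or.inr (Or.inl h2)
    · exact Or.inl h1
  · intro h u v hu hv huv
    rcases h u.1 u.2 v.1 v.2 with h | h | h | h
    · exact absurd h hu
    · exact absurd h hv
    · exact absurd (Subtype.ext h) huv
    · exact (adjb_iff I.1 u v).1 h
  · intro h u hu v hv
    by_cases h1 : u ∈ I.2
    · exact Or.inl h1
    by_cases h2 : v ∈ I.2
    · exact Or.inr (Or.inl h2)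
    by_cases h3 : u = v
    · exact Or.inr (Or.inr (Or.inl h3))
    · exact Or.inr (Or.inr (Or.inr ((adjb_iff I.1 ⟨u, hu⟩ ⟨v, hv⟩).2
        (h ⟨u, hu⟩ ⟨v, hv⟩ h1 h2 fun e => h3 (congrArg Subtype.val e)))))
  · intro h u hu
    rcases h u.1 u.2 with h | h
    · exact absurd hu h
    · exact (deg3_iff I u).1 h
  · intro h u hu
    by_cases h1 : u ∈ I.2
    · exact Or.inr ((deg3_iff I ⟨u, hu⟩).2 (h ⟨u, hu⟩ h1))
    · exact Or.inl h1

/-- The recognition problem is in `NP`. -/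
theorem inNPP_cg : InNPP CliqueGraph3 := by
  obtain ⟨p, hp⟩ := cg_cert
  have h1 : Poly (fun x : Inst × Fm => vb x.1) :=
    vb_poly.comp (f := fun x : Inst × Fm => x.1) (by fun_prop)
  have h2 : Poly (fun x : Inst × Fm => gb x.1.1 x.2) :=
    gb_poly.comp (f := fun x : Inst × Fm => (x.1.1, x.2)) (by fun_prop)
  refine inNPP_of (R := fun x : Inst × Fm => vb x.1 && gb x.1.1 x.2) (Poly.and h1 h2) p fun I => ?_
  unfold CliqueGraph3
  rw [← vb_iff]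
  simp only [Bool.and_eq_true]
  have hmono : p.eval (sz I.1) ≤ p.eval (sz I) := by
    refine eval_mono p ?_
    have : sz I = sz I.1 + sz I.2 + 1 := sz_pair I.1 I.2
    omega
  constructor
  · rintro ⟨h1, h⟩
    obtain ⟨w, hw, hc⟩ := hp I.1 h
    exact ⟨w, hw.trans hmono, h1, hc⟩
  · rintro ⟨w, -, h1, hc⟩
    exact ⟨h1, cg_of_gb hc⟩

end Pool.Agent.Q227.CG
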