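import Pool.Agent.Q227.CG.Sat
import Pool.Agent.Q227.CG.Defs
import Pool.Agent.Q227.SW.Red
import Pool.Agent.NPC.Sat2

/-!
# The reduction
-/

set_option autoImplicit false

namespace Pool.Agent.Q227.CG

open Pool.Agent.NPC Pool.Agent.Q227 Pool.Agent.Q227.TF Pool.Agent.H679R2 Pool.Agent.H601R2.PCG
open Pool.Agent.Q227.SW (lit lit_clause)

/-- The number of literal occurrences. -/
def nn (φ : F3) : ℕ := 3 * φ.length

/-- The adjacency. -/
def ad (φ : F3) (x y : ℕ) : Bool := adj (fun r => (lit φ r).2) (fun r => (lit φ r).1) x y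

/-- The reduction. -/
def red (φ : F3) : Inst :=
  (mkG (List.range (13 * nn φ)) (ad φ), (List.range (13 * nn φ)).filter fun x => decide (7 ≤ x % 13))

theorem mkG_range_adj {N : ℕ} {ad : ℕ → ℕ → Bool} (hs : ∀ u v, ad u v = true → ad v u = true)
    (hi : ∀ u, ad u u = false) (u v : {v : ℕ // v ∈ (mkG (List.range N) ad).1}) :
    (toGraph (mkG (List.range N) ad)).Adj u v ↔ ad u.1 v.1 = true := by
  have hlen : (List.range N).length = N := List.length_range
  have h1 : ∀ i j : ℕ, (hi : i < (List.range N).length) → (hj : j < (List.range N).length) →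
      ((i, j) ∈ (mkG (List.range N) ad).2 ↔ ad i j = true) := by
    intro i j hi hj
    have h := mem_mkDG_fin (L := List.range N) (arc := ad) ⟨i, hi⟩ ⟨j, hj⟩
    have e1 : (List.range N).get ⟨i, hi⟩ = i := by simp
    have e2 : (List.range N).get ⟨j, hj⟩ = j := by simp
    have e3 : (List.range N)[i] = i := by simp
    have e4 : (List.range N)[j] = j := by simp
    refine h.trans ?_
    simp
  have hu := List.mem_range.1 u.2
  have hv := List.mem_range.1 v.2
  change (u ≠ v ∧ ((u.1, v.1) ∈ (mkG (List.range N) ad).2 ∨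
    (v.1, u.1) ∈ (mkG (List.range N) ad).2)) ↔ _
  rw [h1 _ _ hu hv, h1 _ _ hv hu]
  constructor
  · rintro ⟨-, h | h⟩
    · exact h
    · exact hs _ _ h
  · intro h
    refine ⟨fun e => ?_, Or.inl h⟩
    rw [e, hi] at h
    exact Bool.noConfusion h

theorem getD_eq {φ : F3} {r : ℕ} (hr : r < nn φ) : ∃ hc : r / 3 < φ.length,
    lit φ r = if r % 3 = 0 then φ[r / 3].1 else if r % 3 = 1 then φ[r / 3].2.1 else
      φ[r / 3].2.2 := by
  have hc : r / 3 < φ.length := by unfold nn at hr; omega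
  refine ⟨hc, ?_⟩
  unfold lit
  rw [List.getD_eq_getElem _ _ hc]

theorem red_dat {φ : F3} (hd : Distinct3 φ) (hb : Bounded3 φ) :
    Dat (nn φ) (fun r => (lit φ r).2) := by
  refine ⟨by unfold nn; omega, fun r hr => ?_, fun r hr => ?_⟩
  · obtain ⟨hc, h⟩ := getD_eq hr
    obtain ⟨b1, b2, b3⟩ := hb _ (List.getElem_mem hc)
    simp only [h]
    unfold nn
    split_ifs <;> assumption
  · have hr' : nx r < nn φ := by unfold nx nn at *; split_ifs <;> omega
    obtain ⟨hc, h⟩ := getD_eq hr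
    obtain ⟨hc', h'⟩ := getD_eq hr'
    have hdiv : nx r / 3 = r / 3 := by unfold nx; split_ifs <;> omega
    obtain ⟨d1, d2, d3⟩ := hd _ (List.getElem_mem hc)
    simp only [h, h', hdiv]
    have : r % 3 = 0 ∨ r % 3 = 1 ∨ r % 3 = 2 := by omega
    rcases this with e | e | e
    · have e' : nx r % 3 = 1 := by unfold nx; split_ifs <;> omega
      simp [e, e']
      exact d1
    · have e' : nx r % 3 = 2 := by unfold nx; split_ifs <;> omega
      simp [e, e']
      exact d3
    · have e' : nx r % 3 = 0 := by unfold nx; split_ifs <;> omega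
      simp [e, e']
      exact fun h => d2 h.symm

theorem sat_nx (φ : F3) : SAT3 φ ↔ ∃ tt : ℕ → Bool, ∀ r < nn φ,
    tt (lit φ r).2 = (lit φ r).1 ∨ tt (lit φ (nx r)).2 = (lit φ (nx r)).1 ∨
      tt (lit φ (nx (nx r))).2 = (lit φ (nx (nx r))).1 := by
  refine exists_congr fun tt => ?_
  constructor
  · intro h r hr
    have hc : r / 3 < φ.length := by unfold nn at hr; omega
    obtain ⟨l1, l2, l3⟩ := lit_clause hc
    have h0 := h _ (List.getElem_mem hc)
    rw [← l1, ← l2, ← l3] at h0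
    have : r % 3 = 0 ∨ r % 3 = 1 ∨ r % 3 = 2 := by omega
    rcases this with e | e | e
    · have e1 : 3 * (r / 3) = r := by omega
      have e2 : nx r = r + 1 := by unfold nx; split_ifs <;> omega
      have e3 : nx (r + 1) = r + 2 := by unfold nx; split_ifs <;> omega
      rw [e2, e3]
      rw [e1] at h0
      exact h0
    · have e1 : 3 * (r / 3) = r - 1 := by omega
      have e2 : nx r = r + 1 := by unfold nx; split_ifs <;> omega
      have e3 : nx (r + 1) = r - 1 := by unfold nx; split_ifs <;> omega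
      rw [e2, e3]
      rw [e1, show r - 1 + 1 = r by omega, show r - 1 + 2 = r + 1 by omega] at h0
      tauto
    · have e1 : 3 * (r / 3) = r - 2 := by omega
      have e2 : nx r = r - 2 := by unfold nx; split_ifs <;> omega
      have e3 : nx (r - 2) = r - 1 := by unfold nx; split_ifs <;> omega
      rw [e2, e3]
      rw [e1, show r - 2 + 1 = r - 1 by omega, show r - 2 + 2 = r by omega] at h0
      tauto
  · intro h c hc
    obtain ⟨j, hj, rfl⟩ := List.mem_iff_getElem.1 hc
    obtain ⟨l1, l2, l3⟩ := lit_clause hj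
    have h0 := h (3 * j) (by unfold nn; omega)
    have e2 : nx (3 * j) = 3 * j + 1 := by unfold nx; split_ifs <;> omega
    have e3 : nx (3 * j + 1) = 3 * j + 2 := by unfold nx; split_ifs <;> omega
    rw [e2, e3, l1, l2, l3] at h0
    exact h0

theorem red_iff {φ : F3} (hd : Distinct3 φ) (hb : Bounded3 φ) (hne : φ ≠ []) :
    SAT3 φ ↔ IsCliqueGraph (toGraph (red φ).1) := by
  obtain ⟨e⟩ := mkG_iso (L := List.range (13 * nn φ)) List.nodup_range (ad φ)
    (adj_symm _ _) (adj_irrefl _ _)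
  have hpos : 0 < nn φ := by
    have := List.length_pos_iff.2 hne
    unfold nn; omega
  rw [sat_nx, ← cg_iff (ps := fun r => (lit φ r).1) (red_dat hd hb) hpos]
  constructor
  · rintro ⟨W, hW, G, ⟨f⟩⟩
    exact ⟨W, hW, G, ⟨e.trans f⟩⟩
  · rintro ⟨W, hW, G, ⟨f⟩⟩
    exact ⟨W, hW, G, ⟨e.symm.trans f⟩⟩

theorem red_valid {φ : F3} (hd : Distinct3 φ) (hb : Bounded3 φ) : ThreeSplit3 (red φ) := by
  have hD := red_dat hd hb
  have hadj : ∀ u v : {v : ℕ // v ∈ (red φ).1.1}, (toGraph (red φ).1).Adj u v ↔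
      adj (fun r => (lit φ r).2) (fun r => (lit φ r).1) u.1 v.1 = true :=
    mkG_range_adj (adj_symm _ _) (adj_irrefl _ _)
  have hlt : ∀ u : {v : ℕ // v ∈ (red φ).1.1}, u.1 < 13 * nn φ := by
    intro u
    have := List.mem_range.1 u.2
    rwa [List.length_range] at this
  have hS : ∀ u : {v : ℕ // v ∈ (red φ).1.1}, u.1 ∈ (red φ).2 ↔ 7 ≤ u.1 % 13 := by
    intro u
    change u.1 ∈ (List.range (13 * nn φ)).filter _ ↔ _
    rw [List.mem_filter, List.mem_range, decide_eq_true_eq]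
    exact ⟨fun h => h.2, fun h => ⟨hlt u, h⟩⟩
  refine ⟨fun u v hu hv => ?_, fun u v hu hv huv => ?_, fun u hu => ?_⟩
  · rw [hadj]
    exact adj_SS ((hS u).1 hu) ((hS v).1 hv)
  · rw [hadj]
    rw [hS] at hu hv
    exact (adj_KK (by omega) (by omega)).2 fun e => huv (Subtype.ext e)
  · have hk := (hS u).1 hu
    obtain ⟨-, ⟨q1, q2, q3⟩, ⟨n1, n2, n3⟩⟩ := nb_spec (ps := fun r => (lit φ r).1) hD (hlt u) hk
    have hm : ∀ x, x < 13 * nn φ → x ∈ (red φ).1.1 := by
      intro x hx
      change x ∈ List.range _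
      rw [List.mem_range, List.length_range]
      exact hx
    rw [Set.ncard_eq_three]
    refine ⟨⟨_, hm _ q1⟩, ⟨_, hm _ q2⟩, ⟨_, hm _ q3⟩, fun e => n1 (congrArg Subtype.val e),
      fun e => n2 (congrArg Subtype.val e), fun e => n3 (congrArg Subtype.val e), ?_⟩
    ext v
    rw [SimpleGraph.mem_neighborSet, hadj, adj_S hD (hlt u) hk]
    unfold Nb
    simp only [Set.mem_insert_iff, Set.mem_singleton_iff, Subtype.ext_iff]

/-! ### Polynomial time -/

theorem nU : UPoly (fun φ : F3 => 13 * nn φ) :=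
  UPoly.mul (UPoly.const 13) (UPoly.mul (UPoly.const 3) (UPoly.length NPC.Poly.id))

theorem lit_poly : NPC.Poly (fun p : F3 × ℕ => lit p.1 p.2) := by
  unfold lit
  fun_prop

theorem nx_poly : NPC.Poly (fun r : ℕ => nx r) := by
  unfold nx
  fun_prop

theorem isN_poly : NPC.Poly (fun p : F3 × ℕ × ℕ =>
    isN (fun r => (lit p.1 r).2) (fun r => (lit p.1 r).1) p.2.1 p.2.2) := by
  have h1 : NPC.Poly (fun p : F3 × ℕ × ℕ => lit p.1 (p.2.1 / 13)) :=
    lit_poly.comp (f := fun p : F3 × ℕ × ℕ => (p.1, p.2.1 / 13)) (by fun_prop)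
  have h2 : NPC.Poly (fun p : F3 × ℕ × ℕ => nx (p.2.1 / 13)) :=
    nx_poly.comp (f := fun p : F3 × ℕ × ℕ => p.2.1 / 13) (by fun_prop)
  have h3 : NPC.Poly (fun p : F3 × ℕ × ℕ => decide ((lit p.1 (p.2.1 / 13)).1 = true)) := by
    fun_prop
  have h4 : NPC.Poly (fun p : F3 × ℕ × ℕ => lc (fun r => (lit p.1 r).2)
      (fun r => (lit p.1 r).1) (p.2.1 / 13)) := by
    unfold lc
    exact NPC.Poly.ite h3 (by fun_prop) (by fun_prop)
  unfold isN nb1 nb2 nb3
  fun_prop

theorem ad_poly : NPC.Poly (fun p : F3 × ℕ × ℕ => ad p.1 p.2.1 p.2.2) := by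
  have h1 := isN_poly
  have h2 : NPC.Poly (fun p : F3 × ℕ × ℕ =>
      isN (fun r => (lit p.1 r).2) (fun r => (lit p.1 r).1) p.2.2 p.2.1) :=
    isN_poly.comp (f := fun p : F3 × ℕ × ℕ => (p.1, p.2.2, p.2.1)) (by fun_prop)
  unfold ad adj
  fun_prop

theorem red_poly : NPC.Poly red := by
  have h1 : NPC.Poly (fun φ : F3 => List.range (13 * nn φ)) := nU.range
  refine NPC.Poly.pair (mkG_poly (L := fun φ => List.range (13 * nn φ)) (adj := ad) h1 ad_poly) ?_
  fun_prop

end Pool.Agent.Q227.CG
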