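import Pool.Agent.Q227.CG.Gr

/-!
# From a satisfying assignment to a good family
-/

set_option autoImplicit false

namespace Pool.Agent.Q227.CG

open Pool.Agent.H601R2.PCG Pool.Agent.Q227 Pool.Agent.H679R2

/-- The links, from the centre. -/
inductive L0 (vr : ℕ → ℕ) (ps tt : ℕ → Bool) (n : ℕ) : ℕ → ℕ → Prop
  | tT1 (v : ℕ) (h : tt v = true) : L0 vr ps tt n (13 * v + 2) (13 * v)
  | tT2 (v : ℕ) (h : tt v = true) : L0 vr ps tt n (13 * v + 2) (13 * v + 1)
  | tF1 (v : ℕ) (h : tt v = false) : L0 vr ps tt n (13 * v) (13 * v + 1)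
  | tF2 (v : ℕ) (h : tt v = false) : L0 vr ps tt n (13 * v) (13 * v + 2)
  | oT1 (r : ℕ) (hr : r < n) (h : tt (vr r) = ps r) : L0 vr ps tt n (13 * vr r + 1) (13 * r + 3)
  | oT2 (r : ℕ) (hr : r < n) (h : tt (vr r) = ps r) : L0 vr ps tt n (13 * vr r + 1) (13 * nx r + 3)
  | oF1 (r : ℕ) (hr : r < n) (h : tt (vr r) ≠ ps r) : L0 vr ps tt n (13 * nx r + 3) (13 * r + 3)
  | oF2 (r : ℕ) (hr : r < n) (h : tt (vr r) ≠ ps r) : L0 vr ps tt n (13 * nx r + 3) (13 * vr r + 1)
  | g1 (r : ℕ) (hr : r < n) : L0 vr ps tt n (lc vr ps r) (13 * r + 3)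
  | g1' (r : ℕ) (hr : r < n) : L0 vr ps tt n (13 * r + 3) (lc vr ps r)
  | g2 (r : ℕ) (hr : r < n) : L0 vr ps tt n (lc vr ps r) (13 * r + 4)
  | g3 (r : ℕ) (hr : r < n) : L0 vr ps tt n (13 * r + 3) (13 * r + 5)
  | g4 (r : ℕ) (hr : r < n) : L0 vr ps tt n (lc vr ps r) (13 * r + 6)
  | g5 (r : ℕ) (hr : r < n) : L0 vr ps tt n (13 * r + 5) (13 * r + 4)
  | g6 (r : ℕ) (hr : r < n) : L0 vr ps tt n (13 * r + 5) (13 * r + 6)

/-- The links. -/
def Ln (vr : ℕ → ℕ) (ps tt : ℕ → Bool) (n x y : ℕ) : Prop := L0 vr ps tt n x y ∨ L0 vr ps tt n y x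

variable {n : ℕ} {vr : ℕ → ℕ} {ps tt : ℕ → Bool}

theorem Ln.symm {x y : ℕ} (h : Ln vr ps tt n x y) : Ln vr ps tt n y x := Or.symm h

theorem K4 {x y r : ℕ} (hx : x = 13 * r + 4) (h : Ln vr ps tt n x y) :
    y = lc vr ps r ∨ y = 13 * r + 5 := by
  have hl := lc_or vr ps
  rcases h with h | h <;> cases h
  all_goals first
    | omega
    | (rename_i q _
       have := hl q
       have := hl r
       first
        | omega
        | (have e : q = r := by omega
           subst e
           omega))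

theorem K6 {x y r : ℕ} (hx : x = 13 * r + 6) (h : Ln vr ps tt n x y) :
    y = lc vr ps r ∨ y = 13 * r + 5 := by
  have hl := lc_or vr ps
  rcases h with h | h <;> cases h
  all_goals first
    | omega
    | (rename_i q _
       have := hl q
       have := hl r
       first
        | omega
        | (have e : q = r := by omega
           subst e
           omega))

theorem K5 {x y r : ℕ} (hx : x = 13 * r + 5) (h : Ln vr ps tt n x y) :
    y = 13 * r + 3 ∨ y = 13 * r + 4 ∨ y = 13 * r + 6 := by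
  have hl := lc_or vr ps
  rcases h with h | h <;> cases h
  all_goals first
    | omega
    | (rename_i q _
       have := hl q
       have := hl r
       first
        | omega
        | (have e : q = r := by omega
           subst e
           omega))

theorem K3 {x y r : ℕ} (hx : x = 13 * r + 3) (h : Ln vr ps tt n x y) :
    y = lc vr ps r ∨ y = 13 * r + 5 ∨ (y = 13 * vr r + 1 ∧ tt (vr r) = ps r) ∨
    (y = 13 * nx r + 3 ∧ tt (vr r) ≠ ps r) ∨
    (y = 13 * nx (nx r) + 3 ∧ tt (vr (nx (nx r))) ≠ ps (nx (nx r))) ∨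
    y = 13 * vr (nx (nx r)) + 1 := by
  have hl := lc_or vr ps
  rcases h with h | h <;> cases h
  case inl.oF1 q hq h =>
    have e : nx q = r := by omega
    subst e
    rw [nx3]
    tauto
  case inl.oF2 q hq h =>
    have e : nx q = r := by omega
    subst e
    rw [nx3]
    tauto
  case inr.oT2 q hq h =>
    have e : nx q = r := by omega
    subst e
    rw [nx3]
    tauto
  all_goals first
    | omega
    | (rename_i q _
       have := hl q
       have := hl r
       first
        | omega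
        | (have e : q = r := by omega
           subst e
           first
             | omega
             | tauto))
    | (rename_i q _ _
       have e : q = r := by omega
       subst e
       tauto)

theorem K0 {x y : ℕ} (hx : x % 13 < 3) (hy : y % 13 < 3) (h : Ln vr ps tt n x y) :
    x / 13 = y / 13 ∧ x % 13 ≠ y % 13 ∧ (tt (x / 13) = true → x % 13 = 2 ∨ y % 13 = 2) ∧
    (tt (x / 13) = false → x % 13 = 0 ∨ y % 13 = 0) := by
  have hl := lc_or vr ps
  rcases h with h | h <;> cases h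
  all_goals first
    | omega
    | (rename_i q h
       have e0 : (13 * q) / 13 = q := by omega
       have e1 : (13 * q + 1) / 13 = q := by omega
       have e2 : (13 * q + 2) / 13 = q := by omega
       simp only [e0, e1, e2, h]
       refine ⟨trivial, by omega, ?_, ?_⟩
       · intro _; first | omega | simp_all
       · intro _; first | omega | simp_all)

theorem L0_ne {x y : ℕ} (h : L0 vr ps tt n x y) : x ≠ y ∧ x % 13 < 7 ∧ y % 13 < 7 := by
  have hl := lc_or vr ps
  have hn := nx_ne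
  cases h
  all_goals first
    | omega
    | (rename_i q _
       have := hl q
       omega)
    | (rename_i q _ _
       have := hn q
       omega)

theorem Ln_ne {x y : ℕ} (h : Ln vr ps tt n x y) : x ≠ y ∧ x % 13 < 7 ∧ y % 13 < 7 := by
  rcases h with h | h
  · exact L0_ne h
  · have := L0_ne h
    exact ⟨this.1.symm, this.2.2, this.2.1⟩

theorem Kn (hd : Dat n vr) {x y r : ℕ} (hx : x = 13 * r + 3) (h : Ln vr ps tt n x y) : r < n := by
  have hl := lc_or vr ps
  have hn : ∀ q < n, nx q < n := fun q hq => hd.nx_lt hq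
  rcases h with h | h <;> cases h
  all_goals first
    | omega
    | (rename_i q _
       have := hl q
       omega)
    | (rename_i q hq _
       have := hn q hq
       omega)

theorem t4 {x y z r : ℕ} (hx : x = 13 * r + 4) (h1 : Ln vr ps tt n x y) (h2 : Ln vr ps tt n x z)
    (h3 : Ln vr ps tt n y z) : False := by
  have hl := lc_or vr ps r
  have h0 := (Ln_ne h3).1
  rcases K4 hx h1 with e1 | e1 <;> rcases K4 hx h2 with e2 | e2
  · omega
  · have := K5 e2 h3.symm
    omega
  · have := K5 e1 h3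
    omega
  · omega

theorem t6 {x y z r : ℕ} (hx : x = 13 * r + 6) (h1 : Ln vr ps tt n x y) (h2 : Ln vr ps tt n x z)
    (h3 : Ln vr ps tt n y z) : False := by
  have hl := lc_or vr ps r
  have h0 := (Ln_ne h3).1
  rcases K6 hx h1 with e1 | e1 <;> rcases K6 hx h2 with e2 | e2
  · omega
  · have := K5 e2 h3.symm
    omega
  · have := K5 e1 h3
    omega
  · omega

theorem t5 {x y z r : ℕ} (hx : x = 13 * r + 5) (h1 : Ln vr ps tt n x y) (h2 : Ln vr ps tt n x z)
    (h3 : Ln vr ps tt n y z) : False := by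
  have h0 := (Ln_ne h3).1
  rcases K5 hx h1 with e1 | e1 | e1
  · rcases K5 hx h2 with e2 | e2 | e2
    · omega
    · exact t4 e2 h2.symm h3.symm h1
    · exact t6 e2 h2.symm h3.symm h1
  · exact t4 e1 h1.symm h3 h2
  · exact t6 e1 h1.symm h3 h2

theorem t33 (hd : Dat n vr) (hsat : ∀ r < n, tt (vr r) = ps r ∨ tt (vr (nx r)) = ps (nx r) ∨
    tt (vr (nx (nx r))) = ps (nx (nx r))) {x y z r : ℕ} (hx : x = 13 * r + 3)
    (hy : y = 13 * nx r + 3) (h1 : Ln vr ps tt n x y) (h2 : Ln vr ps tt n x z)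
    (h3 : Ln vr ps tt n y z) (hz : z % 13 < 4) : False := by
  have hr := Kn hd hx h1
  have hl := lc_or vr ps r
  have hl1 := lc_or vr ps (nx r)
  have hl2 := lc_or vr ps (nx (nx r))
  have e1 := nx_ne r
  have e2 := nx_ne (nx r)
  have e3 := nx_ne2 r
  have f1 := hd.d1 r hr
  have f2 := hd.d2 hr
  have f3 := hd.d3 hr
  have nr : tt (vr r) ≠ ps r := by
    rcases K3 hx h1 with h | h | h | h | h | h
    · omega
    · omega
    · omega
    · exact h.2
    · omega
    · omega
  have k1 := K3 hx h2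
  have k2 := K3 hy h3
  rw [nx3] at k2
  rcases k1 with h | h | h | h | h | h
  · omega
  · omega
  · exact nr h.2
  · omega
  · rcases k2 with h' | h' | h' | h' | h' | h'
    · omega
    · omega
    · omega
    · rcases hsat r hr with g | g | g
      · exact nr g
      · exact h'.2 g
      · exact h.2 g
    · omega
    · omega
  · omega

theorem t3 (hd : Dat n vr) (hsat : ∀ r < n, tt (vr r) = ps r ∨ tt (vr (nx r)) = ps (nx r) ∨
    tt (vr (nx (nx r))) = ps (nx (nx r))) {x y z r : ℕ} (hx : x = 13 * r + 3)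
    (h1 : Ln vr ps tt n x y) (h2 : Ln vr ps tt n x z)
    (h3 : Ln vr ps tt n y z) (hy : y % 13 < 4) (hz : z % 13 < 4) : False := by
  have hr := Kn hd hx h1
  have hxk : x % 13 < 4 := by omega
  have e1 := nx_ne r
  have e3 := nx_ne2 r
  have f2 := hd.d2 hr
  have three : ∀ {y z : ℕ}, Ln vr ps tt n x y → Ln vr ps tt n x z → Ln vr ps tt n y z →
      y % 13 < 4 → z % 13 < 4 → y % 13 = 3 → False := by
    intro y z h1 h2 h3 hy hz hy3
    rcases K3 hx h1 with h | h | h | h | h | h
    · have := lc_or vr ps r; omega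
    · omega
    · omega
    · exact t33 hd hsat hx h.1 h1 h2 h3 hz
    · refine t33 hd hsat (r := nx (nx r)) h.1 ?_ h1.symm h3 h2 hz
      rw [nx3]; exact hx
    · omega
  by_cases hy3 : y % 13 = 3
  · exact three h1 h2 h3 hy hz hy3
  by_cases hz3 : z % 13 = 3
  · exact three h2 h1 h3.symm hz hy hz3
  have k0 := K0 (by omega) (by omega) h3
  have hl := lc_or vr ps r
  have aux : ∀ {y z : ℕ}, y = lc vr ps r → z = 13 * vr r + 1 → tt (vr r) = ps r →
      (tt (y / 13) = true → y % 13 = 2 ∨ z % 13 = 2) →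
      (tt (y / 13) = false → y % 13 = 0 ∨ z % 13 = 0) → False := by
    intro y z hy hz ht k1 k2
    have e : y / 13 = vr r := by omega
    rw [e, ht] at k1 k2
    cases hp : ps r
    · have : lc vr ps r = 13 * vr r + 2 := by unfold lc; rw [hp]; simp
      have := k2 hp
      omega
    · have : lc vr ps r = 13 * vr r := by unfold lc; rw [hp]; simp
      have := k1 hp
      omega
  rcases K3 hx h1 with h | h | h | h | h | h
  · rcases K3 hx h2 with h' | h' | h' | h' | h' | h'
    · omega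
    · omega
    · exact aux h h'.1 h'.2 k0.2.2.1 k0.2.2.2
    · omega
    · omega
    · omega
  · omega
  · rcases K3 hx h2 with h' | h' | h' | h' | h' | h'
    · refine aux h' h.1 h.2 ?_ ?_
      · intro ht
        rw [← k0.1] at ht
        have := k0.2.2.1 ht
        omega
      · intro ht
        rw [← k0.1] at ht
        have := k0.2.2.2 ht
        omega
    · omega
    · omega
    · omega
    · omega
    · omega
  · omega
  · omega
  · rcases K3 hx h2 with h' | h' | h' | h' | h' | h' <;> omega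

theorem tfree (hd : Dat n vr) (hsat : ∀ r < n, tt (vr r) = ps r ∨ tt (vr (nx r)) = ps (nx r) ∨
    tt (vr (nx (nx r))) = ps (nx (nx r))) (x y z : ℕ) (h1 : Ln vr ps tt n x y)
    (h2 : Ln vr ps tt n y z) (h3 : Ln vr ps tt n x z) : False := by
  have low : ∀ {x y z : ℕ}, Ln vr ps tt n x y → Ln vr ps tt n y z → Ln vr ps tt n x z →
      x % 13 < 4 := by
    intro x y z h1 h2 h3
    by_contra hx
    have := (Ln_ne h1).2.1
    have : x % 13 = 4 ∨ x % 13 = 5 ∨ x % 13 = 6 := by omega
    rcases this with e | e | e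
    · exact t4 (r := x / 13) (by omega) h1 h3 h2
    · exact t5 (r := x / 13) (by omega) h1 h3 h2
    · exact t6 (r := x / 13) (by omega) h1 h3 h2
  have kx := low h1 h2 h3
  have ky := low h2 h3.symm h1.symm
  have kz := low h3.symm h1 h2.symm
  by_cases hx : x % 13 = 3
  · exact t3 hd hsat (r := x / 13) (by omega) h1 h3 h2 ky kz
  by_cases hy : y % 13 = 3
  · exact t3 hd hsat (r := y / 13) (by omega) h1.symm h2 h3 kx kz
  by_cases hz : z % 13 = 3
  · exact t3 hd hsat (r := z / 13) (by omega) h3.symm h2.symm h1 kx ky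
  have a := K0 (by omega) (by omega) h1
  have b := K0 (by omega) (by omega) h2
  have c := K0 (by omega) (by omega) h3
  cases ht : tt (x / 13)
  · have a4 := a.2.2.2 ht
    have b4 := b.2.2.2 (by rw [← a.1]; exact ht)
    have c4 := c.2.2.2 ht
    omega
  · have a4 := a.2.2.1 ht
    have b4 := b.2.2.1 (by rw [← a.1]; exact ht)
    have c4 := c.2.2.1 ht
    omega

/-- A satisfying assignment gives a good family. -/
theorem complete (hd : Dat n vr) (hsat : ∀ r < n, tt (vr r) = ps r ∨
    tt (vr (nx r)) = ps (nx r) ∨ tt (vr (nx (nx r))) = ps (nx (nx r))) :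
    ∃ K, Good (Gg n vr ps) K := by
  refine good_of (S := {x | 7 ≤ x.1 % 13}) (R := fun x y => Ln vr ps tt n x.1 y.1)
    (fun x y h => h.symm) (fun x y z => tfree hd hsat x.1 y.1 z.1)
    (fun a ha b hb => adj_SS ha hb)
    (fun a ha b hb hab => (adj_KK (not_le.1 ha) (not_le.1 hb)).2 fun h => hab (Subtype.ext h)) ?_
  rintro ⟨s, hs⟩ hk
  change 7 ≤ s % 13 at hk
  have hs' := List.mem_range.1 hs
  obtain ⟨-, ⟨q1, q2, q3⟩, -⟩ := nb_spec (ps := ps) hd hs' hk
  have hm : ∀ v, Nb vr ps s v → v ∈ List.range (13 * n) := by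
    rintro v (e | e | e) <;> rw [e, List.mem_range] <;> assumption
  -- reduction to numbers
  have main : ∀ a b c : ℕ, (∀ v, Nb vr ps s v ↔ v = a ∨ v = b ∨ v = c) → L0 vr ps tt n a b →
      L0 vr ps tt n a c → ∃ m e1 e2, (∀ v, (Gg n vr ps).Adj ⟨s, hs⟩ v ↔ v = m ∨ v = e1 ∨ v = e2) ∧
        Ln vr ps tt n m.1 e1.1 ∧ Ln vr ps tt n m.1 e2.1 := by
    intro a b c hN h1 h2
    have ha := hm a ((hN a).2 (Or.inl rfl))
    have hb := hm b ((hN b).2 (Or.inr (Or.inl rfl)))
    have hc := hm c ((hN c).2 (Or.inr (Or.inr rfl)))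
    refine ⟨⟨a, ha⟩, ⟨b, hb⟩, ⟨c, hc⟩, fun v => ?_, Or.inl h1, Or.inl h2⟩
    have h1 : (Gg n vr ps).Adj ⟨s, hs⟩ v ↔ adj vr ps s v.1 = true := Iff.rfl
    rw [h1, adj_S hd hs' hk, hN]
    simp only [Subtype.ext_iff]
  obtain ⟨r, -, he⟩ := kinds hk
  have hr : r < n := by omega
  rcases he with e | e | e | e | e | e
  · cases ht : tt r
    · refine main _ _ _ (fun v => ?_) (L0.tF1 r ht) (L0.tF2 r ht)
      rw [e, Nb7]
    · refine main _ _ _ (fun v => ?_) (L0.tT1 r ht) (L0.tT2 r ht)
      rw [e, Nb7]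
      tauto
  · by_cases ht : tt (vr r) = ps r
    · refine main _ _ _ (fun v => ?_) (L0.oT1 r hr ht) (L0.oT2 r hr ht)
      rw [e, Nb8]
      tauto
    · refine main _ _ _ (fun v => ?_) (L0.oF1 r hr ht) (L0.oF2 r hr ht)
      rw [e, Nb8]
      tauto
  · refine main _ _ _ (fun v => ?_) (L0.g1 r hr) (L0.g2 r hr)
    rw [e, Nb9]
  · refine main _ _ _ (fun v => ?_) (L0.g1' r hr) (L0.g3 r hr)
    rw [e, Nb10]
    tauto
  · refine main _ _ _ (fun v => ?_) (L0.g1 r hr) (L0.g4 r hr)
    rw [e, Nb11]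
  · refine main _ _ _ (fun v => ?_) (L0.g5 r hr) (L0.g6 r hr)
    rw [e, Nb12]
    tauto

/-- The graph is a clique graph if and only if the formula is satisfiable. -/
theorem cg_iff (hd : Dat n vr) (hn : 0 < n) : IsCliqueGraph (Gg n vr ps) ↔
    ∃ tt : ℕ → Bool, ∀ r < n, tt (vr r) = ps r ∨ tt (vr (nx r)) = ps (nx r) ∨
      tt (vr (nx (nx r))) = ps (nx (nx r)) := by
  rw [isCliqueGraph_iff]
  constructor
  · rintro ⟨-, K, hK⟩
    exact sound hd hK
  · rintro ⟨tt, ht⟩
    exact ⟨⟨⟨0, List.mem_range.2 (by omega)⟩⟩, complete hd ht⟩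

end Pool.Agent.Q227.CG
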